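import Pool.Agent.Lib.MP_b3c0e4_co.Main

set_option autoImplicit false

/-!
# MP_b3c0e4_co, Q1: the type B permutahedra are facet-Hamiltonian

Vertices of the type B permutahedron are complete flags of sign vectors (the facets being the
nonzero sign vectors). By recursion on `n` we build a walk on flags together with a marked entry of
the current flag (of rank `0, …, n`), so that every sign vector, the zero one included, is marked at
some time; the walk in dimension `n + 1` first runs through the walk in dimension `n` on the cells
with last sign `-`, moves the new coordinate up, flips its sign, and then follows the old walk
backwards with the new coordinate inserted (with sign `+`) at the marked place, the mark changing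
sides between `(c, 0)` and `(c, +)` each time the marked cell changes. Counting shows that every
move enters a cell not visited before; closing the walk up gives a cycle of length `3 ^ n - 1` that
enters each facet exactly once.
-/

namespace Pool.Agent.Results.MP_b3c0e4_co.FacetHamTypeB

open Pool.Agent.MPb3c0e4

/-- For every `n ≥ 2` the type `B` permutahedron `Bₙ` is facet-Hamiltonian. -/
theorem result (n : ℕ) (hn : 2 ≤ n) : FacetHamiltonian (permutahedronB n) := by
  obtain ⟨m, rfl⟩ : ∃ m, n = m + 1 := ⟨n - 1, by omega⟩
  exact facetHamiltonian_succ (by omega)

end Pool.Agent.Results.MP_b3c0e4_co.FacetHamTypeB
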